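import Mathlib

open Filter Topology Finset Matrix Complex

namespace Pool.Agent.Results.MP_8f6a5a_an.Counter

lemma mem_spec {n : ℕ} (A : Matrix (Fin n) (Fin n) ℂ) (k : ℂ) :
    k ∈ spectrum ℂ A ↔ ∃ v, v ≠ 0 ∧ A *ᵥ v = k • v := by
  rw [spectrum.mem_iff, Matrix.isUnit_iff_isUnit_det, isUnit_iff_ne_zero, not_not,
    ← Matrix.exists_mulVec_eq_zero_iff]
  refine exists_congr fun v => and_congr_right fun _ => ?_
  rw [Matrix.sub_mulVec, Algebra.algebraMap_eq_smul_one, Matrix.smul_mulVec, one_mulVec,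
    sub_eq_zero, eq_comm]

lemma mem_spec' {n : ℕ} (A : Matrix (Fin n) (Fin n) ℂ) (k : ℂ) :
    k ∈ spectrum ℂ A ↔ ∃ v, v ≠ 0 ∧ v ᵥ* A = k • v := by
  rw [spectrum.mem_iff, Matrix.isUnit_iff_isUnit_det, isUnit_iff_ne_zero, not_not,
    ← Matrix.exists_vecMul_eq_zero_iff]
  refine exists_congr fun v => and_congr_right fun _ => ?_
  rw [Matrix.vecMul_sub, Algebra.algebraMap_eq_smul_one, Matrix.vecMul_smul, vecMul_one,
    sub_eq_zero, eq_comm]

lemma le_rad {n : ℕ} (A : Matrix (Fin n) (Fin n) ℂ) (k : ℂ) (h : k ∈ spectrum ℂ A) :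
    (‖k‖₊ : ENNReal) ≤ spectralRadius ℂ A :=
  le_iSup₂ (f := fun k (_ : k ∈ spectrum ℂ A) => (‖k‖₊ : ENNReal)) k h

lemma radius_one {n : ℕ} (hn : 0 < n) (P : Matrix (Fin n) (Fin n) ℝ) (hP : ∀ i j, 0 ≤ P i j)
    (u : Fin n → ℝ) (hu : ∀ i, 0 < u i) (h : ∀ i, ∑ j, P i j * u j = u i) :
    spectralRadius ℂ (P.map ((↑) : ℝ → ℂ)) = 1 := by
  have : Nonempty (Fin n) := ⟨⟨0, hn⟩⟩
  apply le_antisymm
  · refine iSup₂_le fun k hk => ?_
    obtain ⟨v, hv, e⟩ := (mem_spec _ _).1 hk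
    obtain ⟨i, hi⟩ := Finite.exists_max fun j => ‖v j‖ / u j
    set m := ‖v i‖ / u i with hm
    have hle : ∀ j, ‖v j‖ ≤ m * u j := fun j => (div_le_iff₀ (hu j)).1 (hi j)
    have hvi : ‖v i‖ = m * u i := by rw [hm]; field_simp [(hu i).ne']
    have hm0 : 0 < m := by
      obtain ⟨j, hj⟩ := Function.ne_iff.1 hv
      exact lt_of_lt_of_le (div_pos (norm_pos_iff.2 hj) (hu j)) (hi j)
    have h1 : ‖k‖ * ‖v i‖ ≤ m * u i := by
      have e1 := congrFun e i
      simp only [mulVec, dotProduct, map_apply, Pi.smul_apply, smul_eq_mul] at e1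
      rw [← norm_mul, ← e1, ← h i, mul_sum]
      refine (norm_sum_le _ _).trans (sum_le_sum fun j _ => ?_)
      rw [norm_mul, Complex.norm_real, Real.norm_of_nonneg (hP i j)]
      have := mul_le_mul_of_nonneg_left (hle j) (hP i j)
      linarith
    rw [hvi] at h1
    have h2 : ‖k‖ ≤ 1 := by
      have := mul_pos hm0 (hu i)
      nlinarith
    exact_mod_cast h2
  · have h1 : (1 : ℂ) ∈ spectrum ℂ (P.map ((↑) : ℝ → ℂ)) := by
      refine (mem_spec _ _).2 ⟨fun i => (u i : ℂ), fun h0 => ?_, ?_⟩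
      · have := congrFun h0 ⟨0, hn⟩
        simp only [Pi.zero_apply, ofReal_eq_zero] at this
        exact (hu _).ne' this
      · funext i
        simp only [mulVec, dotProduct, map_apply, one_smul]
        exact_mod_cast h i
    refine le_trans ?_ (le_rad _ _ h1)
    simp

section gen
variable (n : ℕ) (u r : ℕ → ℝ) (ε : ℝ)

noncomputable def w (j : ℕ) : ℝ := 1 / (r j * u j * u (j + 1))
noncomputable def lo (j : ℕ) : ℝ := if j = 0 then 0 else w u r (j - 1)
noncomputable def hi (j : ℕ) : ℝ := if j + 1 < n then w u r j else 0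
noncomputable def d (j : ℕ) : ℝ := (lo u r j * u (j - 1) + hi n u r j * u (j + 1)) / u j
noncomputable def Pn (i j : ℕ) : ℝ := (if j = i then 1 - ε * d n u r i else 0)
  + (if j = i + 1 then ε * w u r i else 0) + (if j + 1 = i then ε * w u r j else 0)
noncomputable def P : Matrix (Fin n) (Fin n) ℝ := Matrix.of fun i j => Pn n u r ε i j

lemma sum_P (y : ℕ → ℂ) (i : Fin n) : ∑ j : Fin n, (P n u r ε i j : ℂ) * y j
    = (1 - ε * d n u r i) * y i + ε * hi n u r i * y (i + 1) + ε * lo u r i * y (i - 1) := by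
  have : ∑ j : Fin n, (P n u r ε i j : ℂ) * y j = ∑ j ∈ range n, (Pn n u r ε i j : ℂ) * y j :=
    Fin.sum_univ_eq_sum_range (fun j => (Pn n u r ε i j : ℂ) * y j) n
  rw [this]
  simp only [Pn, ofReal_add, add_mul, sum_add_distrib, apply_ite ((↑) : ℝ → ℂ), ite_mul,
    ofReal_zero, zero_mul, sum_ite_eq', mem_range, i.2, if_true]
  congr 1
  · congr 1
    · push_cast; ring
    · unfold hi; split_ifs <;> simp
  · unfold lo
    obtain ⟨i, hi⟩ := i
    cases i with
    | zero => simp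
    | succ i =>
      simp only [add_left_inj, sum_ite_eq', mem_range, Nat.succ_ne_zero, if_false,
        Nat.add_sub_cancel]
      rw [if_pos (by omega)]; push_cast; ring

variable {u r}

lemma w_pos (hu : ∀ j, 0 < u j) (hr : ∀ j, 0 < r j) (j : ℕ) : 0 < w u r j := by
  unfold w; have := hu j; have := hu (j + 1); have := hr j; positivity

lemma lo_nn (hu : ∀ j, 0 < u j) (hr : ∀ j, 0 < r j) (j : ℕ) : 0 ≤ lo u r j := by
  unfold lo; split_ifs; exacts [le_rfl, (w_pos hu hr _).le]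

lemma hi_nn (hu : ∀ j, 0 < u j) (hr : ∀ j, 0 < r j) (j : ℕ) : 0 ≤ hi n u r j := by
  unfold hi; split_ifs; exacts [(w_pos hu hr _).le, le_rfl]

lemma d_nn (hu : ∀ j, 0 < u j) (hr : ∀ j, 0 < r j) (j : ℕ) : 0 ≤ d n u r j := by
  unfold d
  have := lo_nn hu hr j; have := hi_nn n hu hr j
  have := hu j; have := hu (j + 1); have := hu (j - 1); positivity

lemma ex_eps (hu : ∀ j, 0 < u j) (hr : ∀ j, 0 < r j) : ∃ ε : ℝ, 0 < ε ∧
    ∀ j < n, ε * d n u r j < 1 ∧ ε * hi n u r j + ε * lo u r j ≤ 1 := by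
  have hn : ∀ j, 0 ≤ d n u r j + hi n u r j + lo u r j := fun j =>
    add_nonneg (add_nonneg (d_nn n hu hr j) (hi_nn n hu hr j)) (lo_nn hu hr j)
  set S := ∑ j ∈ range n, (d n u r j + hi n u r j + lo u r j)
  have hS : 0 ≤ S := sum_nonneg fun j _ => hn j
  refine ⟨1 / (1 + S), by positivity, fun j hj => ?_⟩
  have h1 : d n u r j + hi n u r j + lo u r j ≤ S :=
    single_le_sum (f := fun j => d n u r j + hi n u r j + lo u r j) (fun j _ => hn j)
      (mem_range.2 hj)
  have := lo_nn hu hr j; have := hi_nn n hu hr j; have := d_nn n hu hr j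
  constructor
  · rw [one_div, inv_mul_eq_div, div_lt_one (by positivity)]; linarith
  · rw [← mul_add, one_div, inv_mul_eq_div, div_le_one (by positivity)]; linarith

end gen

noncomputable def st (u r : ℕ → ℝ) (σ a : ℂ) : ℕ → ℂ × ℂ
  | 0 => (a, 0)
  | j + 1 => ((st u r σ a j).1 + r j * ((st u r σ a j).2 + I * u j ^ 2 * (st u r σ a j).1 - σ * u j),
      (st u r σ a j).2 + I * u j ^ 2 * (st u r σ a j).1 - σ * u j)

lemma st_lin (u r : ℕ → ℝ) (σ a : ℂ) (j : ℕ) :
    (st u r σ a j).1 = σ * (st u r 1 0 j).1 + a * (st u r 0 1 j).1 ∧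
    (st u r σ a j).2 = σ * (st u r 1 0 j).2 + a * (st u r 0 1 j).2 := by
  induction j with
  | zero => simp [st]
  | succ j ih => simp only [st, ih.1, ih.2]; constructor <;> ring

lemma st_eq (n : ℕ) {u r : ℕ → ℝ} (ε : ℝ) (hu : ∀ j, 0 < u j) (hr : ∀ j, 0 < r j) (σ a : ℂ)
    (h : (st u r σ a n).2 = 0) (i : Fin n) :
    ∑ j : Fin n, (P n u r ε i j : ℂ) * (u j * (st u r σ a j).1)
      = (1 + ε * I) * (u i * (st u r σ a i).1) - ε * σ := by
  rw [sum_P n u r ε (fun j => u j * (st u r σ a j).1) i]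
  obtain ⟨i, hi'⟩ := i
  simp only
  have hu' : ∀ j, (u j : ℂ) ≠ 0 := fun j => by exact_mod_cast (hu j).ne'
  have hr' : ∀ j, (r j : ℂ) ≠ 0 := fun j => by exact_mod_cast (hr j).ne'
  have e1 : (lo u r i : ℂ) * u (i - 1) * u i * ((st u r σ a i).1 - (st u r σ a (i - 1)).1)
      = (st u r σ a i).2 := by
    cases i with
    | zero => simp [lo, st]
    | succ i =>
      simp only [lo, Nat.succ_ne_zero, if_false, Nat.add_sub_cancel, w, st]
      have := hu' i; have := hu' (i + 1); have := hr' i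
      push_cast; field_simp; ring
  have e2 : (hi n u r i : ℂ) * u (i + 1) * u i * ((st u r σ a (i + 1)).1 - (st u r σ a i).1)
      = (st u r σ a (i + 1)).2 := by
    unfold hi
    split_ifs with h1
    · simp only [w, st]
      have := hu' i; have := hu' (i + 1); have := hr' i
      push_cast; field_simp; ring
    · have : i + 1 = n := by omega
      rw [this, h]; simp
  have e3 : (st u r σ a (i + 1)).2
      = (st u r σ a i).2 + I * u i ^ 2 * (st u r σ a i).1 - σ * u i := rfl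
  have := hu' i
  apply mul_left_cancel₀ this
  have e4 : (d n u r i : ℂ) * u i = lo u r i * u (i - 1) + hi n u r i * u (i + 1) := by
    unfold d; push_cast; field_simp
  linear_combination (-ε : ℂ) * e1 + ε * e2 + ε * e3 - ε * u i * (st u r σ a i).1 * e4

noncomputable def uu (j : ℕ) : ℝ := if j < 1500 then 1 else if j < 1502 then 40 else 1 / 1000
noncomputable def rr (τ : ℝ) (j : ℕ) : ℝ :=
  if j < 1499 then τ else if j = 1499 then 1 / 400 else if j = 1500 then 1 / 500 else 1000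

lemma uu_pos (j : ℕ) : 0 < uu j := by unfold uu; split_ifs <;> norm_num
lemma rr_pos {τ : ℝ} (h : 0 < τ) (j : ℕ) : 0 < rr τ j := by
  unfold rr; split_ifs <;> first | exact h | norm_num

lemma st_cont (σ a : ℝ → ℂ) (hσ : Continuous σ) (ha : Continuous a) (j : ℕ) :
    Continuous (fun τ => (st uu (rr τ) (σ τ) (a τ) j).1) ∧
    Continuous (fun τ => (st uu (rr τ) (σ τ) (a τ) j).2) := by
  induction j with
  | zero => exact ⟨ha, continuous_const⟩
  | succ j ih =>
    obtain ⟨h1, h2⟩ := ih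
    have h3 : Continuous fun τ : ℝ => rr τ j := by
      unfold rr; split_ifs <;> fun_prop
    simp only [st]
    constructor <;> fun_prop

lemma st_bulk (σ a : ℂ) (j : ℕ) (hj : j ≤ 1499) : st uu (rr 0) σ a j = (a, j * (I * a - σ)) := by
  induction j with
  | zero => simp [st]
  | succ j ih =>
    have h1 : j < 1500 := by omega
    have h2 : j < 1499 := by omega
    simp only [st, ih (by omega), uu, rr, if_pos h1, if_pos h2]
    push_cast
    refine Prod.ext ?_ ?_ <;> simp only <;> ring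

lemma st_succ (u r : ℕ → ℝ) (σ a : ℂ) (j k : ℕ) (h : k = j + 1) (x φ : ℂ)
    (e : st u r σ a j = (x, φ)) : st u r σ a k = (x + r j * (φ + I * u j ^ 2 * x - σ * u j),
      φ + I * u j ^ 2 * x - σ * u j) := by
  subst h; simp only [st, e]

noncomputable def sg (τ : ℝ) : ℂ := (st uu (rr τ) 0 1 1503).2
noncomputable def aa (τ : ℝ) : ℂ := -(st uu (rr τ) 1 0 1503).2
noncomputable def Y (τ : ℝ) (j : ℕ) : ℂ := uu j * (st uu (rr τ) (sg τ) (aa τ) j).1
def cr (p q : ℂ) : ℝ := p.re * q.im - p.im * q.re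

lemma Y_cont (j : ℕ) : Continuous fun τ => Y τ j := by
  have h1 : Continuous sg := (st_cont _ _ continuous_const continuous_const 1503).2
  have h2 : Continuous aa := (st_cont _ _ continuous_const continuous_const 1503).2.neg
  exact continuous_const.mul (st_cont _ _ h1 h2 j).1

lemma vals (σ a : ℂ) :
    (st uu (rr 0) σ a 1501).1 = σ * (-683 / 100 - 12 * I) + a * (-11 + (199 / 20) * I) ∧
    (st uu (rr 0) σ a 1502).1 = σ * (1761999317 / 100 - 16928012 * I)
      + a * (-21920011 - 289999801 / 20 * I) ∧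
    (st uu (rr 0) σ a 1503).2 = σ * (4409231753 / 250000 - 1691038000683 / 100000000 * I)
      + a * (-438110000199 / 20000000 - 14521920011 / 1000000 * I) := by
  have h0 := st_bulk σ a 1499 le_rfl
  have h1 := st_succ _ _ _ _ _ 1500 rfl _ _ h0
  have h2 := st_succ _ _ _ _ _ 1501 rfl _ _ h1
  have h3 := st_succ _ _ _ _ _ 1502 rfl _ _ h2
  have h4 := st_succ _ _ _ _ _ 1503 rfl _ _ h3
  rw [h2, h3, h4]
  have u1 : uu 1499 = 1 := by norm_num [uu]
  have u2 : uu 1500 = 40 := by norm_num [uu]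
  have u3 : uu 1501 = 40 := by norm_num [uu]
  have u4 : uu 1502 = 1 / 1000 := by norm_num [uu]
  have r1 : rr 0 1499 = 1 / 400 := by norm_num [rr]
  have r2 : rr 0 1500 = 1 / 500 := by norm_num [rr]
  have r3 : rr 0 1501 = 1000 := by norm_num [rr]
  simp only [u1, u2, u3, u4, r1, r2, r3]
  push_cast
  refine ⟨?_, ?_, ?_⟩ <;> apply Complex.ext <;> simp [pow_two] <;> ring

lemma at0 : sg 0 ≠ 0 ∧ 0 < cr (Y 0 1502) (Y 0 1501) ∧ 0 < cr (Y 0 1501) (Y 0 0) ∧
    0 < cr (Y 0 0) (Y 0 1502) := by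
  have h1 : sg 0 = -438110000199 / 20000000 - 14521920011 / 1000000 * I := by
    unfold sg; rw [(vals 0 1).2.2]; ring
  have h2 : aa 0 = -(4409231753 / 250000 - 1691038000683 / 100000000 * I) := by
    unfold aa; rw [(vals 1 0).2.2]; ring
  have u0 : uu 0 = 1 := by norm_num [uu]
  have u3 : uu 1501 = 40 := by norm_num [uu]
  have u4 : uu 1502 = 1 / 1000 := by norm_num [uu]
  have y0 : (st uu (rr 0) (sg 0) (aa 0) 0).1 = aa 0 := rfl
  unfold Y
  rw [(vals _ _).1, (vals _ _).2.1, y0, h1, h2, u0, u3, u4]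
  refine ⟨fun h => ?_, ?_, ?_, ?_⟩
  · have := congrArg Complex.re h
    simp at this
  all_goals
    simp [cr]
    norm_num

lemma ex_tau : ∃ τ : ℝ, 0 < τ ∧ sg τ ≠ 0 ∧ 0 < cr (Y τ 1502) (Y τ 1501) ∧
    0 < cr (Y τ 1501) (Y τ 0) ∧ 0 < cr (Y τ 0) (Y τ 1502) := by
  obtain ⟨a0, a1, a2, a3⟩ := at0
  have hc : ∀ i j, Continuous fun τ => cr (Y τ i) (Y τ j) := by
    intro i j
    have h1 := Y_cont i; have h2 := Y_cont j
    exact ((continuous_re.comp h1).mul (continuous_im.comp h2)).sub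
      ((continuous_im.comp h1).mul (continuous_re.comp h2))
  have h1 : Continuous sg := (st_cont _ _ continuous_const continuous_const 1503).2
  have e0 := h1.continuousAt.eventually_ne a0
  have e1 := continuousAt_const.eventually_lt (hc 1502 1501).continuousAt a1
  have e2 := continuousAt_const.eventually_lt (hc 1501 0).continuousAt a2
  have e3 := continuousAt_const.eventually_lt (hc 0 1502).continuousAt a3
  have e := (e0.and (e1.and (e2.and e3))).filter_mono (nhdsWithin_le_nhds (s := Set.Ioi 0))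
  exact ((eventually_mem_nhdsWithin (a := (0 : ℝ)) (s := Set.Ioi 0)).and e).exists

lemma tri (p q t : ℂ) : (cr q t : ℂ) * p + cr t p * q + cr p q * t = 0 := by
  apply Complex.ext <;> simp [cr] <;> ring

lemma main (n : ℕ) (hn : 0 < n) {u r : ℕ → ℝ} (hu : ∀ j, 0 < u j) (hr : ∀ j, 0 < r j) (σ a : ℂ)
    (h : (st u r σ a n).2 = 0) (hσ : σ ≠ 0) (c : Fin n → ℝ) (hc1 : ∑ i, c i = 1)
    (hc2 : ∑ i, (c i : ℂ) * (u i * (st u r σ a i).1) = 0) :
    ∃ P : Matrix (Fin n) (Fin n) ℝ, P.IsSymm ∧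
      (∀ i j : Fin n, ((i : ℕ) + 1 < j ∨ (j : ℕ) + 1 < i) → P i j = 0) ∧
      (∀ i j : Fin n, (i : ℕ) ≤ j + 1 → (j : ℕ) ≤ i + 1 → 0 < P i j) ∧
      spectralRadius ℂ (P.map ((↑) : ℝ → ℂ)) = 1 ∧
      (∀ s : Fin n, ∑ i : Fin n,
        (if (i : ℕ) + 1 = s ∨ (i : ℕ) = s + 1 then P i s else 0) ≤ 1) ∧
      1 < spectralRadius ℂ (((1 - vecMulVec c 1) * P).map ((↑) : ℝ → ℂ)) := by
  obtain ⟨ε, hε, hb⟩ := ex_eps n hu hr
  have hw := w_pos hu hr
  have hsym : ∀ i j : Fin n, P n u r ε i j = P n u r ε j i := by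
    intro i j
    simp only [P, Pn, of_apply]
    obtain ⟨i, hi⟩ := i
    obtain ⟨j, hj⟩ := j
    simp only
    by_cases h1 : j = i
    · subst h1; simp
    by_cases h2 : j = i + 1
    · subst h2
      rw [if_neg h1, if_pos rfl, if_neg (by omega), if_neg (by omega), if_neg (by omega)]
      ring
    by_cases h3 : j + 1 = i
    · subst h3
      rw [if_neg h1, if_neg h2, if_pos rfl, if_neg (by omega), if_neg (by omega)]
      ring
    rw [if_neg h1, if_neg h2, if_neg h3, if_neg (by omega), if_neg (by omega), if_neg (by omega)]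
  have hzero : ∀ i j : Fin n, ((i : ℕ) + 1 < j ∨ (j : ℕ) + 1 < i) → P n u r ε i j = 0 := by
    intro i j hij
    simp only [P, Pn, of_apply]
    split_ifs <;> first | omega | simp
  have hpos : ∀ i j : Fin n, (i : ℕ) ≤ j + 1 → (j : ℕ) ≤ i + 1 → 0 < P n u r ε i j := by
    intro i j h1 h2
    simp only [P, Pn, of_apply]
    have := (hb i i.2).1
    have := mul_pos hε (hw i)
    have := mul_pos hε (hw j)
    split_ifs <;> first | omega | linarith
  have hnn : ∀ i j : Fin n, 0 ≤ P n u r ε i j := by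
    intro i j
    by_cases hij : ((i : ℕ) + 1 < j ∨ (j : ℕ) + 1 < i)
    · exact (hzero i j hij).ge
    · exact (hpos i j (by omega) (by omega)).le
  refine ⟨P n u r ε, IsSymm.ext fun i j => hsym j i, hzero, hpos, ?_, fun s => ?_, ?_⟩
  · refine radius_one hn _ hnn (fun i => u i) (fun i => hu i) fun i => ?_
    have h1 := sum_P n u r ε (fun j => (u j : ℂ)) i
    have h2 : ∑ j : Fin n, P n u r ε i j * u j = (1 - ε * d n u r i) * u i
        + ε * hi n u r i * u (i + 1) + ε * lo u r i * u (i - 1) := by exact_mod_cast h1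
    rw [h2]; unfold d; field_simp [(hu i).ne']; ring
  · have h1 := sum_P n u r ε (fun j => if j = s then 0 else 1) s
    have h2 : ∑ j : Fin n, P n u r ε s j * (if (j : ℕ) = s then 0 else 1)
        = (1 - ε * d n u r s) * (if (s : ℕ) = s then 0 else 1)
        + ε * hi n u r s * (if (s : ℕ) + 1 = s then 0 else 1)
        + ε * lo u r s * (if (s : ℕ) - 1 = s then 0 else 1) := by
      apply Complex.ofReal_injective
      simp only [ofReal_sum, ofReal_mul, ofReal_add, ofReal_sub, apply_ite ((↑) : ℝ → ℂ),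
        ofReal_zero, ofReal_one] at h1 ⊢
      exact h1
    have h3 : ∑ i : Fin n, (if (i : ℕ) + 1 = s ∨ (i : ℕ) = s + 1 then P n u r ε i s else 0)
        ≤ ∑ j : Fin n, P n u r ε s j * (if (j : ℕ) = s then 0 else 1) := by
      refine sum_le_sum fun i _ => ?_
      have := hnn s i
      rw [hsym i s]
      split_ifs <;> first | omega | linarith
    refine h3.trans ?_
    rw [h2]
    have h4 := (hb s s.2).2
    have h5 := mul_nonneg hε.le (lo_nn hu hr s)
    split_ifs <;> first | omega | linarith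
  · set y : Fin n → ℂ := fun i => u i * (st u r σ a i).1 with hy
    have hP : ∀ i, ∑ j, (P n u r ε i j : ℂ) * y j = (1 + ε * I) * y i - ε * σ :=
      st_eq n ε hu hr σ a h
    have hc1' : ∑ i, (c i : ℂ) = 1 := by exact_mod_cast hc1
    have hdot : ∑ i, ((1 + ε * I) * y i - ε * σ) * (c i : ℂ) = -(ε * σ) := by
      have : ∀ i, ((1 + ε * I) * y i - ε * σ) * (c i : ℂ)
          = (1 + ε * I) * (c i * y i) - ε * σ * c i := fun i => by ring
      simp only [this, sum_sub_distrib, ← mul_sum]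
      rw [hc1', hc2]; ring
    have hm : (1 + ε * I : ℂ) ∈ spectrum ℂ
        (((1 - vecMulVec c 1) * P n u r ε).map ((↑) : ℝ → ℂ)) := by
      refine (mem_spec' _ _).2 ⟨fun i => (1 + ε * I) * y i - ε * σ, fun h0 => ?_, ?_⟩
      · have : ∀ i, (1 + ε * I) * y i - ε * σ = 0 := fun i => congrFun h0 i
        simp only [this, zero_mul, sum_const_zero] at hdot
        have h2 : (ε : ℂ) ≠ 0 := by exact_mod_cast hε.ne'
        exact mul_ne_zero h2 hσ (neg_eq_zero.1 hdot.symm)
      · funext j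
        simp only [vecMul, dotProduct, map_apply, mul_apply, ofReal_sum, ofReal_mul, mul_sum,
          Pi.smul_apply, smul_eq_mul]
        rw [sum_comm, ← hP j, mul_sum]
        refine sum_congr rfl fun k _ => ?_
        simp only [← mul_assoc, ← sum_mul]
        have : ∑ i, ((1 + ε * I) * y i - ε * σ) * (((1 - vecMulVec c 1 : Matrix _ _ ℝ) i k : ℝ) : ℂ)
            = (1 + ε * I) * y k := by
          simp only [Matrix.sub_apply, vecMulVec_apply, Pi.one_apply, mul_one, ofReal_sub, mul_sub,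
            sum_sub_distrib, hdot, one_apply, apply_ite ((↑) : ℝ → ℂ), ofReal_one, ofReal_zero,
            mul_ite, mul_zero, sum_ite_eq', mem_univ, if_true]
          ring
        rw [this, hsym k j]; ring
    refine lt_of_lt_of_le ?_ (le_rad _ _ hm)
    have : 1 < ‖(1 + ε * I : ℂ)‖ := by
      rw [← sq_lt_sq₀ zero_le_one (norm_nonneg _), Complex.sq_norm, normSq_apply]
      simp [hε.ne']
    exact_mod_cast this

lemma fin3 {n : ℕ} (i j k : Fin n) (p q t : ℝ) (hp : 0 < p) (hq : 0 < q) (ht : 0 < t)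
    (y : Fin n → ℂ) (h : p * y i + q * y j + t * y k = 0) :
    ∃ c : Fin n → ℝ, (∀ l, 0 ≤ c l) ∧ ∑ l, c l = 1 ∧ ∑ l, (c l : ℂ) * y l = 0 := by
  have hS : 0 < p + q + t := by positivity
  refine ⟨fun l => ((if l = i then p else 0) + (if l = j then q else 0)
    + (if l = k then t else 0)) / (p + q + t), fun l => ?_, ?_, ?_⟩
  · apply div_nonneg _ hS.le
    split_ifs <;> linarith
  · simp only [← sum_div, sum_add_distrib, sum_ite_eq', mem_univ, if_true]
    exact div_self hS.ne'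
  · simp only [ofReal_div, div_mul_eq_mul_div, ← sum_div, ofReal_add, add_mul, sum_add_distrib,
      apply_ite ((↑) : ℝ → ℂ), ite_mul, ofReal_zero, zero_mul, sum_ite_eq', mem_univ, if_true, h,
      zero_div]

theorem result : ∃ (P : Matrix (Fin 1503) (Fin 1503) ℝ) (c : Fin 1503 → ℝ), P.IsSymm ∧
    (∀ i j : Fin 1503, ((i : ℕ) + 1 < j ∨ (j : ℕ) + 1 < i) → P i j = 0) ∧
    (∀ i j : Fin 1503, (i : ℕ) ≤ j + 1 → (j : ℕ) ≤ i + 1 → 0 < P i j) ∧
    spectralRadius ℂ (P.map ((↑) : ℝ → ℂ)) = 1 ∧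
    (∀ s : Fin 1503, ∑ i : Fin 1503,
      (if (i : ℕ) + 1 = s ∨ (i : ℕ) = s + 1 then P i s else 0) ≤ 1) ∧
    (∀ i, 0 ≤ c i) ∧ ∑ i, c i = 1 ∧
    1 < spectralRadius ℂ (((1 - Matrix.vecMulVec c 1) * P).map ((↑) : ℝ → ℂ)) := by
  obtain ⟨τ, hτ, a0, a1, a2, a3⟩ := ex_tau
  obtain ⟨c, c0, c1, c2⟩ := fin3 (n := 1503) ⟨0, by norm_num⟩ ⟨1502, by norm_num⟩
    ⟨1501, by norm_num⟩ _ _ _ a1 a2 a3 (fun l => Y τ l) (tri (Y τ 0) (Y τ 1502) (Y τ 1501))
  have h : (st uu (rr τ) (sg τ) (aa τ) 1503).2 = 0 := by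
    rw [(st_lin _ _ _ _ _).2]; unfold sg aa; ring
  obtain ⟨P, p1, p2, p3, p4, p5, p6⟩ := main 1503 (by norm_num) uu_pos (rr_pos hτ) _ _ h a0 c c1 c2
  exact ⟨P, c, p1, p2, p3, p4, p5, c0, c1, p6⟩

end Pool.Agent.Results.MP_8f6a5a_an.Counter
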